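import Pool.Agent.Helper59.LUC.Goals

set_option autoImplicit false

namespace Pool.Agent.Helper59.LUC

namespace PkWP

/-- `e_0 = 1`, `e_1 = T + μ`, `e_{n+2} = T e_{n+1} - μ^2 e_n` -/
def e (T μ : ℤ) : ℕ → ℤ
  | 0 => 1
  | 1 => T + μ
  | (n + 2) => T * e T μ (n + 1) - μ ^ 2 * e T μ n

lemma e_succ (T μ : ℤ) (n : ℕ) : e T μ (n + 2) = T * e T μ (n + 1) - μ ^ 2 * e T μ n := rfl

lemma V_succ (P Q : ℤ) (n : ℕ) : V P Q (n + 2) = P * V P Q (n + 1) - Q * V P Q n := rfl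

lemma inv (T μ : ℤ) (i : ℕ) :
    e T μ (i + 1) ^ 2 - T * e T μ (i + 1) * e T μ i + μ ^ 2 * e T μ i ^ 2 =
      μ ^ (2 * i + 1) * (T + 2 * μ) := by
  induction i with
  | zero => simp [e]; ring
  | succ i ih =>
    rw [e_succ]
    have h : μ ^ (2 * (i + 1) + 1) = μ ^ 2 * μ ^ (2 * i + 1) := by ring
    rw [h]
    linear_combination μ ^ 2 * ih

lemma V_four (T Q : ℤ) (n : ℕ) :
    V T Q (n + 4) = (T ^ 2 - 2 * Q) * V T Q (n + 2) - Q ^ 2 * V T Q n := by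
  have h1 : V T Q (n + 4) = T * V T Q (n + 3) - Q * V T Q (n + 2) := V_succ T Q (n + 2)
  have h2 : V T Q (n + 3) = T * V T Q (n + 2) - Q * V T Q (n + 1) := V_succ T Q (n + 1)
  have h3 : V T Q (n + 2) = T * V T Q (n + 1) - Q * V T Q n := V_succ T Q n
  rw [h1, h2]
  linear_combination Q * h3

lemma V_odd (T μ : ℤ) (i : ℕ) :
    V T (μ ^ 2) (2 * i + 1) = 2 * μ ^ (2 * i + 1) - (2 * μ - T) * e T μ i ^ 2 := by
  induction i using Nat.twoStepInduction with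
  | zero => simp [V, e]
  | one =>
    simp [V, e]
    ring
  | more i ih1 ih2 =>
    have e1 : 2 * (i + 2) + 1 = (2 * i + 1) + 4 := by ring
    have e2 : 2 * (i + 1) + 1 = (2 * i + 1) + 2 := by ring
    rw [e2] at ih2
    rw [e1, V_four, ih1, ih2, e_succ]
    have h := inv T μ i
    have p1 : μ ^ (2 * i + 1 + 4) = μ ^ 4 * μ ^ (2 * i + 1) := by ring
    have p2 : μ ^ (2 * i + 1 + 2) = μ ^ 2 * μ ^ (2 * i + 1) := by ring
    rw [p1, p2]
    linear_combination (2 * (2 * μ - T) * μ ^ 2) * h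

lemma W_odd (T μ : ℤ) (i : ℕ) : W T μ (2 * i + 1) = (2 * μ - T) * e T μ i ^ 2 := by
  unfold W
  rw [V_odd]
  ring

lemma expand (T μ : ℤ) (i : ℕ) : ∃ r : ℤ, 6 * μ * e T μ i =
    6 * (2 * i + 1) * μ ^ (i + 1) - i * (i + 1) * (2 * i + 1) * μ ^ i * (2 * μ - T) +
      (2 * μ - T) ^ 2 * r := by
  induction i using Nat.twoStepInduction with
  | zero => exact ⟨0, by simp [e]⟩
  | one =>
    refine ⟨0, ?_⟩
    simp [e]
    ring
  | more i ih1 ih2 =>
    obtain ⟨r1, h1⟩ := ih1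
    obtain ⟨r2, h2⟩ := ih2
    refine ⟨(i + 1) * (i + 2) * (2 * i + 3) * μ ^ (i + 1) + T * r2 - μ ^ 2 * r1, ?_⟩
    rw [e_succ]
    push_cast at h1 h2 ⊢
    have q1 : μ ^ (i + 2 + 1) = μ ^ 3 * μ ^ i := by ring
    have q2 : μ ^ (i + 2) = μ ^ 2 * μ ^ i := by ring
    have q3 : μ ^ (i + 1) = μ * μ ^ i := by ring
    have q4 : μ ^ (i + 1 + 1) = μ ^ 2 * μ ^ i := by ring
    rw [q3] at h1
    rw [q4, q3] at h2
    rw [q1, q2, q3]
    linear_combination T * h2 - μ ^ 2 * h1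

theorem thm : G_WP := by
  intro T μ p hp h5 hpy hpμ
  have hpi : Prime (p : ℤ) := Nat.prime_iff_prime_int.mp hp
  obtain ⟨h, hh⟩ : ∃ h, p = 2 * h + 1 := by
    rcases hp.eq_two_or_odd' with h2 | h2
    · omega
    · exact h2
  refine ⟨e T μ h ^ 2, ?_, ?_⟩
  · rw [hh, W_odd]
  · -- p^2 does not divide e_h
    have key : ¬ (p : ℤ) ^ 2 ∣ e T μ h := by
      intro hd
      obtain ⟨r, hr⟩ := expand T μ h
      obtain ⟨y, hy⟩ := hpy
      obtain ⟨k, hk⟩ := hd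
      have hcast : (2 * (h : ℤ) + 1) = p := by rw [hh]; push_cast; ring
      rw [hcast, hy, hk] at hr
      have h6 : (p : ℤ) ∣ 6 * μ ^ (h + 1) := by
        have hp0 : (p : ℤ) ≠ 0 := hpi.ne_zero
        refine ⟨6 * μ * k + h * (h + 1) * μ ^ h * y - y ^ 2 * r, ?_⟩
        have := mul_left_cancel₀ hp0 (a := (p : ℤ)) (b := 6 * μ ^ (h + 1))
          (c := p * (6 * μ * k + h * (h + 1) * μ ^ h * y - y ^ 2 * r))
          (by linear_combination -hr)
        exact this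
      rcases hpi.dvd_or_dvd h6 with h7 | h7
      · have h8 : p ∣ 6 := by exact_mod_cast h7
        have h9 : p ≤ 6 := Nat.le_of_dvd (by norm_num) h8
        interval_cases p
        · norm_num at h8
        · norm_num at hp
      · exact hpμ (hpi.dvd_of_dvd_pow h7)
    intro hd
    have h1 : (p : ℤ) ∣ e T μ h := by
      have : (p : ℤ) ∣ e T μ h ^ 2 := dvd_trans (dvd_pow_self _ (by norm_num)) hd
      exact hpi.dvd_of_dvd_pow this
    obtain ⟨k, hk⟩ := h1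
    obtain ⟨c, hc⟩ := hd
    have hp0 : (p : ℤ) ≠ 0 := hpi.ne_zero
    have h2 : (p : ℤ) ∣ k ^ 2 := by
      refine ⟨c, ?_⟩
      have := mul_left_cancel₀ (pow_ne_zero 2 hp0) (b := k ^ 2) (c := p * c)
        (by rw [hk] at hc; linear_combination hc)
      exact this
    have h3 := hpi.dvd_of_dvd_pow h2
    obtain ⟨l, hl⟩ := h3
    exact key ⟨l, by rw [hk, hl]; ring⟩

end PkWP

end Pool.Agent.Helper59.LUC
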